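import Mathlib

/-!
Chamberland's map: covering of prescribed heights, bounds of distances.
-/

set_option autoImplicit false

namespace Pool.Agent.K9h56.ED

open Real Set Filter Topology

/-- Chamberland's map. -/
noncomputable def g (x : ℝ) : ℝ := x + 1 / 4 - (x / 2 + 1 / 4) * Real.cos (Real.pi * x)

theorem g_cont : Continuous g := by unfold g; fun_prop

theorem g_smooth : ContDiff ℝ 1 g := by
  unfold g
  have h1 : ContDiff ℝ 1 (fun x : ℝ => Real.cos (Real.pi * x)) :=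
    Real.contDiff_cos.comp (contDiff_const.mul contDiff_id)
  exact (contDiff_id.add contDiff_const).sub
    (((contDiff_id.div_const 2).add contDiff_const).mul h1)

theorem g_iter_smooth (k : ℕ) : ContDiff ℝ 1 (g^[k]) := by
  induction k with
  | zero => exact contDiff_id
  | succ k ih =>
    rw [Function.iterate_succ']
    exact g_smooth.comp ih

theorem cos_shift (h : ℕ) (t : ℝ) : Real.cos (π * (h + t)) = (-1) ^ h * Real.cos (π * t) := by
  have e : π * (h + t) = π * t + h * π := by ring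
  rw [e, Real.cos_add_nat_mul_pi]

theorem g_shift (h : ℕ) (t : ℝ) :
    g (h + t) = h + t + 1 / 4 - ((h + t) / 2 + 1 / 4) * ((-1) ^ h * Real.cos (π * t)) := by
  unfold g
  rw [cos_shift]

theorem lip {h : ℕ} (hh : 3 ≤ h) {x y : ℝ} (hx : x ∈ Icc (h : ℝ) (h + 1))
    (_hy : y ∈ Icc (h : ℝ) (h + 1)) : |g x - g y| ≤ 3 * h * |x - y| := by
  have hh' : (3 : ℝ) ≤ h := by exact_mod_cast hh
  have e : g x - g y = (x - y) - (x - y) / 2 * Real.cos (π * y)
      - (x / 2 + 1 / 4) * (Real.cos (π * x) - Real.cos (π * y)) := by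
    unfold g; ring
  have h1 : |Real.cos (π * x) - Real.cos (π * y)| ≤ 3.15 * |x - y| := by
    refine (Real.abs_cos_sub_cos_le _ _).trans ?_
    rw [← mul_sub, abs_mul, abs_of_pos Real.pi_pos]
    exact mul_le_mul_of_nonneg_right Real.pi_lt_d2.le (abs_nonneg _)
  have h2 : |(x / 2 + 1 / 4) * (Real.cos (π * x) - Real.cos (π * y))| ≤
      ((h + 1) / 2 + 1 / 4) * (3.15 * |x - y|) := by
    rw [abs_mul, abs_of_nonneg (by linarith [hx.1] : 0 ≤ x / 2 + 1 / 4)]
    exact mul_le_mul (by linarith [hx.2]) h1 (abs_nonneg _) (by positivity)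
  have h3 : |(x - y) / 2 * Real.cos (π * y)| ≤ |x - y| / 2 := by
    rw [abs_mul, abs_div, abs_two]
    have := Real.abs_cos_le_one (π * y)
    have h0 : 0 ≤ |x - y| / 2 := by positivity
    nlinarith
  have h4 : |g x - g y| ≤ |x - y| + |x - y| / 2 + ((h + 1) / 2 + 1 / 4) * (3.15 * |x - y|) := by
    rw [e]
    refine (abs_sub _ _).trans ?_
    exact add_le_add ((abs_sub _ _).trans (add_le_add le_rfl h3)) h2
  refine h4.trans ?_
  have h0 : 0 ≤ |x - y| := abs_nonneg _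
  nlinarith

/-- Covering with margins. -/
theorem cover {h : ℕ} {η : ℝ} (h0 : 0 ≤ η) (h1 : η ≤ 1 / 2) {y : ℝ}
    (hy1 : (1 - Real.cos (π * η) / 2) * h + 5 / 4 ≤ y)
    (hy2 : y ≤ (1 + Real.cos (π * η) / 2) * h) :
    ∃ x ∈ Icc ((h : ℝ) + η) (h + 1 - η), g x = y := by
  have hC0 : 0 ≤ Real.cos (π * η) := by
    apply Real.cos_nonneg_of_mem_Icc
    constructor
    · have := Real.pi_pos
      nlinarith
    · have := Real.pi_pos
      nlinarith
  have hC1 := Real.cos_le_one (π * η)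
  set C := Real.cos (π * η) with hC
  have hle : (h : ℝ) + η ≤ h + 1 - η := by linarith
  have e2 : Real.cos (π * (1 - η)) = -C := by
    have : π * (1 - η) = π - π * η := by ring
    rw [this, Real.cos_pi_sub]
  have v1 := g_shift h η
  have v2 := g_shift h (1 - η)
  rw [e2] at v2
  rw [← hC] at v1
  have e3 : (h : ℝ) + (1 - η) = h + 1 - η := by ring
  rw [e3] at v2
  have hh : (0 : ℝ) ≤ h := Nat.cast_nonneg _
  rcases Nat.even_or_odd h with he | ho
  · rw [he.neg_one_pow] at v1 v2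
    have hmem : y ∈ Icc (g (h + η)) (g (h + 1 - η)) := by
      constructor
      · rw [v1]; nlinarith
      · rw [v2]; nlinarith
    obtain ⟨x, hx, hxy⟩ := intermediate_value_Icc hle g_cont.continuousOn hmem
    exact ⟨x, hx, hxy⟩
  · rw [ho.neg_one_pow] at v1 v2
    have hmem : y ∈ Icc (g (h + 1 - η)) (g (h + η)) := by
      constructor
      · rw [v2]; nlinarith
      · rw [v1]; nlinarith
    obtain ⟨x, hx, hxy⟩ := intermediate_value_Icc' hle g_cont.continuousOn hmem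
    exact ⟨x, hx, hxy⟩

/-- Covering between integers. -/
theorem cover_int {h h' : ℕ} (hh : 3 ≤ h) (h1 : h + 1 ≤ 2 * h') (h2 : 2 * h' ≤ 3 * h) {y : ℝ}
    (hy : y ∈ Icc (h' : ℝ) (h' + 1)) : ∃ x ∈ Icc (h : ℝ) (h + 1), g x = y := by
  have hle : (h : ℝ) ≤ h + 1 := by linarith
  have v1 := g_shift h 0
  have v2 := g_shift h 1
  simp only [mul_zero, Real.cos_zero, mul_one, Real.cos_pi, add_zero] at v1 v2
  have h1' : (h : ℝ) + 1 ≤ 2 * h' := by exact_mod_cast h1
  have h2' : 2 * (h' : ℝ) ≤ 3 * h := by exact_mod_cast h2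
  rcases Nat.even_or_odd h with he | ho
  · rw [he.neg_one_pow] at v1 v2
    have hmem : y ∈ Icc (g h) (g (h + 1)) := by
      constructor
      · rw [v1]; linarith [hy.1]
      · rw [v2]; linarith [hy.2]
    obtain ⟨x, hx, hxy⟩ := intermediate_value_Icc hle g_cont.continuousOn hmem
    exact ⟨x, hx, hxy⟩
  · rw [ho.neg_one_pow] at v1 v2
    have h3 : 2 * h' + 1 ≤ 3 * h := by
      obtain ⟨c, rfl⟩ := ho
      omega
    have h3' : 2 * (h' : ℝ) + 1 ≤ 3 * h := by exact_mod_cast h3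
    have hmem : y ∈ Icc (g (h + 1)) (g h) := by
      constructor
      · rw [v2]; linarith [hy.1]
      · rw [v1]; linarith [hy.2]
    obtain ⟨x, hx, hxy⟩ := intermediate_value_Icc' hle g_cont.continuousOn hmem
    exact ⟨x, hx, hxy⟩

/-- Uniform covering for ratios in a compact part of `(1/2, 3/2)`. -/
theorem margin {q p : ℝ} (hq : 1 / 2 < q) (hp : p < 3 / 2) :
    ∃ η : ℝ, 0 < η ∧ η ≤ 1 / 4 ∧ ∃ h0 : ℕ, ∀ h : ℕ, h0 ≤ h → ∀ y : ℝ, q * h ≤ y → y ≤ p * h →
      ∃ x ∈ Icc ((h : ℝ) + η) (h + 1 - η), g x = y := by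
  obtain ⟨C0, hC1, hC2, hC3⟩ : ∃ C0 : ℝ, C0 < 1 ∧ 2 * (p - 1) ≤ C0 ∧ 3 / 2 - q ≤ C0 := by
    refine ⟨max (2 * (p - 1)) (3 / 2 - q), ?_, le_max_left _ _, le_max_right _ _⟩
    rw [max_lt_iff]
    constructor <;> linarith
  obtain ⟨η, hη0, hη1, hη2⟩ : ∃ η : ℝ, 0 < η ∧ η ≤ 1 / 4 ∧ η ≤ (1 - C0) / 5 :=
    ⟨min (1 / 4) ((1 - C0) / 5), by
      rw [lt_min_iff]; constructor <;> linarith, min_le_left _ _, min_le_right _ _⟩
  have hcos : C0 ≤ Real.cos (π * η) := by
    have h1 := Real.one_sub_sq_div_two_le_cos (x := π * η)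
    have hp2 : π < 3.15 := Real.pi_lt_d2
    have hp0 := Real.pi_pos
    have h2 : π ^ 2 ≤ 10 := by nlinarith
    have h3 : η ^ 2 ≤ η := by nlinarith
    have h4 : (π * η) ^ 2 ≤ 10 * η := by
      rw [mul_pow]
      calc π ^ 2 * η ^ 2 ≤ 10 * η ^ 2 := mul_le_mul_of_nonneg_right h2 (sq_nonneg _)
        _ ≤ 10 * η := by linarith
    linarith
  refine ⟨η, hη0, hη1, ⌈5 / 2 / (q - 1 / 2)⌉₊, ?_⟩
  intro h hh y hy1 hy2
  have hh1 : 5 / 2 / (q - 1 / 2) ≤ (h : ℝ) := (Nat.le_ceil _).trans (by exact_mod_cast hh)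
  rw [div_le_iff₀ (by linarith)] at hh1
  have hh0 : (0 : ℝ) ≤ h := Nat.cast_nonneg _
  apply cover hη0.le (by linarith)
  · refine le_trans ?_ hy1
    nlinarith
  · refine hy2.trans ?_
    nlinarith

end Pool.Agent.K9h56.ED
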