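import Pool.Agent.K9h56.ED.Basic
import Pool.Agent.R825.MK.Dim

/-!
Points of prescribed heights for Chamberland's map, and their Hausdorff dimension.
-/

set_option autoImplicit false

namespace Pool.Agent.K9h56.ED

open Real Set Filter Topology
open scoped NNReal ENNReal

/-- Covering transitions. -/
def Tr (η : ℝ) (H : ℕ → ℕ) : Prop := ∀ k, ∀ y ∈ Icc ((H (k + 1) : ℝ) + η) (H (k + 1) + 1 - η),
  ∃ x ∈ Icc ((H k : ℝ) + η) (H k + 1 - η), g x = y

theorem path_fin {η : ℝ} (hη : η ≤ 1 / 2) {H : ℕ → ℕ} (hH : Tr η H) (K : ℕ) : ∀ j : ℕ,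
    ∃ x, ∀ i ≤ K, g^[i] x ∈ Icc ((H (j + i) : ℝ) + η) (H (j + i) + 1 - η) := by
  induction K with
  | zero =>
    intro j
    refine ⟨H j + η, fun i hi => ?_⟩
    obtain rfl : i = 0 := by omega
    simp only [Function.iterate_zero, id_eq, add_zero]
    constructor <;> linarith
  | succ K ih =>
    intro j
    obtain ⟨x', hx'⟩ := ih (j + 1)
    have h0 := hx' 0 (Nat.zero_le _)
    simp only [Function.iterate_zero, id_eq, add_zero] at h0
    obtain ⟨x, hx, hxy⟩ := hH j x' h0
    refine ⟨x, fun i hi => ?_⟩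
    rcases i with _ | i
    · simpa using hx
    · rw [Function.iterate_succ_apply, hxy]
      have := hx' i (by omega)
      rw [show j + (i + 1) = j + 1 + i by ring]
      exact this

theorem path {η : ℝ} (hη : η ≤ 1 / 2) {H : ℕ → ℕ} (hH : Tr η H) :
    ∃ x, ∀ i, g^[i] x ∈ Icc ((H i : ℝ) + η) (H i + 1 - η) := by
  set S : ℕ → Set ℝ := fun K => ⋂ i ≤ K, (g^[i]) ⁻¹' Icc ((H i : ℝ) + η) (H i + 1 - η) with hS
  have hcl : ∀ K, IsClosed (S K) := by
    intro K
    refine isClosed_biInter fun i _ => ?_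
    exact isClosed_Icc.preimage (g_cont.iterate i)
  have hanti : ∀ K, S (K + 1) ⊆ S K := by
    intro K x hx
    simp only [hS, mem_iInter] at hx ⊢
    exact fun i hi => hx i (by omega)
  have hne : ∀ K, (S K).Nonempty := by
    intro K
    obtain ⟨x, hx⟩ := path_fin hη hH K 0
    refine ⟨x, ?_⟩
    simp only [hS, mem_iInter]
    intro i hi
    have := hx i hi
    rw [zero_add] at this
    exact this
  have hcpt : IsCompact (S 0) := by
    refine IsCompact.of_isClosed_subset (isCompact_Icc (a := (H 0 : ℝ) + η) (b := H 0 + 1 - η))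
      (hcl 0) ?_
    intro x hx
    simp only [hS, mem_iInter] at hx
    simpa using hx 0 le_rfl
  obtain ⟨x, hx⟩ := IsCompact.nonempty_iInter_of_sequence_nonempty_isCompact_isClosed S hanti hne
    hcpt hcl
  refine ⟨x, fun i => ?_⟩
  have := mem_iInter.1 hx i
  simp only [hS, mem_iInter] at this
  exact this i le_rfl

/-- Separation of points with different heights. -/
theorem sep {η : ℝ} (hη : 0 ≤ η) {H H' : ℕ → ℕ} (h3 : ∀ i, 3 ≤ H i) {x x' : ℝ}
    (hx : ∀ i, g^[i] x ∈ Icc ((H i : ℝ) + η) (H i + 1 - η))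
    (hx' : ∀ i, g^[i] x' ∈ Icc ((H' i : ℝ) + η) (H' i + 1 - η)) {k : ℕ}
    (heq : ∀ i < k, H i = H' i) (hne : H k ≠ H' k) :
    2 * η ≤ (∏ i ∈ Finset.range k, (3 * (H i : ℝ))) * |x - x'| := by
  have hd : ∀ j ≤ k, |g^[j] x - g^[j] x'| ≤ (∏ i ∈ Finset.range j, (3 * (H i : ℝ))) * |x - x'| := by
    intro j
    induction j with
    | zero => intro _; simp
    | succ j ih =>
      intro hj
      have h1 := ih (by omega)
      rw [Function.iterate_succ_apply', Function.iterate_succ_apply', Finset.prod_range_succ]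
      have h2 := hx j
      have h4 := hx' j
      rw [← heq j (by omega)] at h4
      have h5 := lip (h3 j) (x := g^[j] x) (y := g^[j] x')
        ⟨by linarith [h2.1], by linarith [h2.2]⟩ ⟨by linarith [h4.1], by linarith [h4.2]⟩
      refine h5.trans ?_
      have h6 : (0 : ℝ) ≤ 3 * H j := by positivity
      calc 3 * (H j : ℝ) * |g^[j] x - g^[j] x'|
          ≤ 3 * (H j : ℝ) * ((∏ i ∈ Finset.range j, (3 * (H i : ℝ))) * |x - x'|) :=
            mul_le_mul_of_nonneg_left h1 h6
        _ = _ := by ring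
  refine le_trans ?_ (hd k le_rfl)
  have h1 := hx k
  have h2 := hx' k
  rcases lt_or_gt_of_ne hne with h | h
  · have h' : (H k : ℝ) + 1 ≤ H' k := by exact_mod_cast h
    rw [abs_sub_comm]
    refine le_trans ?_ (le_abs_self _)
    linarith [h1.2, h2.1]
  · have h' : (H' k : ℝ) + 1 ≤ H k := by exact_mod_cast h
    refine le_trans ?_ (le_abs_self _)
    linarith [h1.1, h2.2]

theorem prod_dom {u v : ℕ → ℝ} (hu : ∀ i, 0 < u i) (hv : ∀ i, 0 < v i)
    (h : ∀ᶠ i in atTop, u i ≤ v i) : ∃ C : ℝ, 0 < C ∧ ∀ k,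
      ∏ i ∈ Finset.range k, u i ≤ C * ∏ i ∈ Finset.range k, v i := by
  obtain ⟨i0, hi0⟩ := eventually_atTop.1 h
  set P : ℕ → ℝ := fun k => ∏ i ∈ Finset.range k, (u i / v i) with hP
  have hP0 : ∀ k, 0 < P k := fun k => Finset.prod_pos fun i _ => div_pos (hu i) (hv i)
  have hle : ∀ k, P k ≤ ∑ j ∈ Finset.range (i0 + 1), P j := by
    intro k
    rcases le_total k i0 with hk | hk
    · exact Finset.single_le_sum (f := P) (fun j _ => (hP0 j).le)
        (Finset.mem_range.2 (by omega))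
    · obtain ⟨d, rfl⟩ := Nat.exists_eq_add_of_le hk
      have h1 : P (i0 + d) ≤ P i0 := by
        induction d with
        | zero => simp
        | succ d ih =>
          have h2 := ih (by omega)
          have h3 : P (i0 + (d + 1)) = P (i0 + d) * (u (i0 + d) / v (i0 + d)) := by
            rw [hP]
            simp only
            rw [show i0 + (d + 1) = (i0 + d) + 1 by ring, Finset.prod_range_succ]
          rw [h3]
          have h4 : u (i0 + d) / v (i0 + d) ≤ 1 := by
            rw [div_le_one (hv _)]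
            exact hi0 _ (by omega)
          calc P (i0 + d) * (u (i0 + d) / v (i0 + d)) ≤ P (i0 + d) * 1 :=
                mul_le_mul_of_nonneg_left h4 (hP0 _).le
            _ ≤ P i0 := by rw [mul_one]; exact h2
      exact h1.trans (Finset.single_le_sum (f := P) (fun j _ => (hP0 j).le)
        (Finset.mem_range.2 (by omega)))
  refine ⟨∑ j ∈ Finset.range (i0 + 1), P j, Finset.sum_pos (fun j _ => hP0 j) ⟨0, by simp⟩, ?_⟩
  intro k
  have h1 := hle k
  have h2 : P k = (∏ i ∈ Finset.range k, u i) / ∏ i ∈ Finset.range k, v i := by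
    rw [hP]; exact Finset.prod_div_distrib _ _
  have h3 : 0 < ∏ i ∈ Finset.range k, v i := Finset.prod_pos fun i _ => hv i
  rw [h2, div_le_iff₀ h3] at h1
  exact h1

/-- start of block `k` -/
def Ac (a : ℕ → ℕ) (k : ℕ) : ℕ := ∑ i ∈ Finset.range k, a i

theorem Ac_succ (a : ℕ → ℕ) (k : ℕ) : Ac a (k + 1) = Ac a k + a k := by
  unfold Ac; rw [Finset.sum_range_succ]

theorem Ac_mono (a : ℕ → ℕ) : Monotone (Ac a) := by
  apply monotone_nat_of_le_succ
  intro k
  rw [Ac_succ]; omega

/-- the digit of block `k` -/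
def dig (a : ℕ → ℕ) (b : ℕ → Fin 2) (k : ℕ) : ℕ :=
  ((finFunctionFinEquiv (fun j : Fin (a k) => b (Ac a k + j)) : Fin (2 ^ (a k))) : ℕ)

theorem dig_lt (a : ℕ → ℕ) (b : ℕ → Fin 2) (k : ℕ) : dig a b k < 2 ^ (a k) := by
  unfold dig
  exact Fin.is_lt _

theorem dig_eq_of {a : ℕ → ℕ} {b b' : ℕ → Fin 2} {k n : ℕ} (h : ∀ i < n, b i = b' i)
    (hk : Ac a (k + 1) ≤ n) : dig a b k = dig a b' k := by
  unfold dig
  have : (fun j : Fin (a k) => b (Ac a k + j)) = (fun j : Fin (a k) => b' (Ac a k + j)) := by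
    funext j
    apply h
    have := j.2
    rw [Ac_succ] at hk
    omega
  rw [this]

theorem dig_ne_of {a : ℕ → ℕ} {b b' : ℕ → Fin 2} {k n : ℕ} (hn : b n ≠ b' n)
    (h1 : Ac a k ≤ n) (h2 : n < Ac a (k + 1)) : dig a b k ≠ dig a b' k := by
  unfold dig
  intro he
  have he' := finFunctionFinEquiv.injective (Fin.ext he)
  rw [Ac_succ] at h2
  have := congrFun he' ⟨n - Ac a k, by omega⟩
  simp only at this
  rw [show Ac a k + (n - Ac a k) = n by omega] at this
  exact hn this

theorem block_of {a : ℕ → ℕ} (ha : Tendsto (Ac a) atTop atTop) (n : ℕ) :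
    ∃ k, Ac a k ≤ n ∧ n < Ac a (k + 1) := by
  classical
  have hex : ∃ k, n < Ac a (k + 1) := by
    obtain ⟨k, hk⟩ := (ha.eventually_gt_atTop n).exists
    exact ⟨k, hk.trans_le (Ac_mono a (by omega))⟩
  refine ⟨Nat.find hex, ?_, Nat.find_spec hex⟩
  rcases h : Nat.find hex with _ | j
  · simp [Ac]
  · have := Nat.find_min hex (m := j) (by omega)
    omega

end Pool.Agent.K9h56.ED
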