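import Pool.Agent.K9h56.ED.Code

/-!
The Hausdorff dimension of the points of prescribed heights is one.
-/

set_option autoImplicit false

namespace Pool.Agent.K9h56.ED

open Real Set Filter Topology
open scoped NNReal ENNReal

/-- the heights of the point of a binary sequence -/
def Ht (B a : ℕ → ℕ) (b : ℕ → Fin 2) (k : ℕ) : ℕ := B k + dig a b k

theorem Ac_tendsto {a : ℕ → ℕ} (h : ∀ᶠ i in atTop, 1 ≤ a i) : Tendsto (Ac a) atTop atTop := by
  obtain ⟨i0, hi0⟩ := eventually_atTop.1 h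
  have h1 : ∀ d, d ≤ Ac a (i0 + d) := by
    intro d
    induction d with
    | zero => omega
    | succ d ih =>
      rw [show i0 + (d + 1) = (i0 + d) + 1 by ring, Ac_succ]
      have := hi0 (i0 + d) (by omega)
      omega
  rw [tendsto_atTop_atTop]
  intro c
  refine ⟨i0 + c, fun k hk => (h1 c).trans (Ac_mono a hk)⟩

theorem dim_code {q p η : ℝ} {h0 : ℕ} (hη0 : 0 < η) (hη1 : η ≤ 1 / 4)
    (hcov : ∀ h : ℕ, h0 ≤ h → ∀ y : ℝ, q * h ≤ y → y ≤ p * h →
      ∃ x ∈ Icc ((h : ℝ) + η) (h + 1 - η), g x = y)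
    {B a : ℕ → ℕ} (hB3 : ∀ k, 3 ≤ B k) (hB0 : ∀ k, h0 ≤ B k) (hBa : ∀ k, 2 ^ (a k) ≤ B k)
    (hq0 : 0 < q) (hq : ∀ k, q * ((B k : ℝ) + 2 ^ (a k)) ≤ B (k + 1))
    (hp0 : 0 < p) (hp : ∀ k, (B (k + 1) : ℝ) + 2 ^ (a (k + 1)) ≤ p * B k)
    (hdim : ∀ s : ℝ, 0 < s → s < 1 → ∀ᶠ i in atTop, (6 * (B i : ℝ)) ^ s ≤ 2 ^ (a i)) :
    1 ≤ dimH {y : ℝ | ∀ k, g^[k] y ∈ Icc (B k : ℝ) (B k + 2 ^ (a k))} := by
  have hdl : ∀ b k, (dig a b k : ℝ) + 1 ≤ 2 ^ (a k) := by
    intro b k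
    have := dig_lt a b k
    exact_mod_cast this
  have hTr : ∀ b, Tr η (Ht B a b) := by
    intro b k y hy
    have e0 : (Ht B a b (k + 1) : ℝ) = B (k + 1) + dig a b (k + 1) := by
      unfold Ht; push_cast; ring
    have e1 : (Ht B a b k : ℝ) = B k + dig a b k := by
      unfold Ht; push_cast; ring
    have d0 : (0 : ℝ) ≤ dig a b (k + 1) := Nat.cast_nonneg _
    have d1 : (0 : ℝ) ≤ dig a b k := Nat.cast_nonneg _
    have d2 := hdl b (k + 1)
    have d3 := hdl b k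
    apply hcov
    · unfold Ht
      have := hB0 k
      omega
    · refine le_trans ?_ hy.1
      rw [e0, e1]
      have h1 := hq k
      have h2 : q * ((B k : ℝ) + dig a b k) ≤ q * ((B k : ℝ) + 2 ^ (a k)) :=
        mul_le_mul_of_nonneg_left (by linarith) hq0.le
      linarith
    · refine hy.2.trans ?_
      rw [e0, e1]
      have h1 := hp k
      have h2 : p * (B k : ℝ) ≤ p * ((B k : ℝ) + dig a b k) :=
        mul_le_mul_of_nonneg_left (by linarith) hp0.le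
      linarith
  choose F hF using fun b => path (by linarith : η ≤ 1 / 2) (hTr b)
  have hH1 : ∀ b k, (Ht B a b k : ℝ) + 1 ≤ B k + 2 ^ (a k) := by
    intro b k
    have := hdl b k
    unfold Ht
    push_cast
    linarith
  have hH0 : ∀ b k, (B k : ℝ) ≤ Ht B a b k := by
    intro b k
    unfold Ht
    push_cast
    linarith [(Nat.cast_nonneg (dig a b k) : (0 : ℝ) ≤ dig a b k)]
  have hFT : ∀ b, F b ∈ {y : ℝ | ∀ k, g^[k] y ∈ Icc (B k : ℝ) (B k + 2 ^ (a k))} := by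
    intro b k
    have h1 := hF b k
    have h2 := hH1 b k
    have h3 := hH0 b k
    constructor
    · linarith [h1.1]
    · linarith [h1.2]
  have ha1 : ∀ᶠ i in atTop, 1 ≤ a i := by
    filter_upwards [hdim (1 / 2) (by norm_num) (by norm_num)] with i hi
    by_contra hcon
    have h0 : a i = 0 := by omega
    rw [h0, pow_zero] at hi
    have h3 : (3 : ℝ) ≤ B i := by exact_mod_cast hB3 i
    have h4 : (1 : ℝ) < (6 * (B i : ℝ)) ^ (1 / 2 : ℝ) :=
      Real.one_lt_rpow (by linarith) (by norm_num)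
    linarith
  have hAc := Ac_tendsto ha1
  apply ENNReal.le_of_forall_nnreal_lt
  intro s hs1
  have hs1' : (s : ℝ) < 1 := by exact_mod_cast hs1
  rcases eq_or_lt_of_le (zero_le (a := s)) with h0 | hs0
  · rw [← h0]; simp
  have hs0' : (0 : ℝ) < s := by exact_mod_cast hs0
  have hBpos : ∀ i, (0 : ℝ) < 6 * (B i : ℝ) := by
    intro i
    have h3 : (3 : ℝ) ≤ B i := by exact_mod_cast hB3 i
    linarith
  obtain ⟨C0, hC0, hC⟩ := prod_dom (u := fun i => (6 * (B i : ℝ)) ^ (s : ℝ))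
    (v := fun i => 2 ^ (a i)) (fun i => Real.rpow_pos_of_pos (hBpos i) _)
    (fun i => by positivity) (hdim s hs0' hs1')
  have hCn : 0 ≤ C0 * (2 * η) ^ (-(s : ℝ)) := by positivity
  refine Pool.Agent.R825.MK.le_dimH_of_code F _ hFT s ⟨C0 * (2 * η) ^ (-(s : ℝ)), hCn⟩ hs0 ?_
  intro b b' n hpre hne
  obtain ⟨k, hk1, hk2⟩ := block_of hAc n
  have heq : ∀ i < k, Ht B a b i = Ht B a b' i := by
    intro i hi
    unfold Ht
    rw [dig_eq_of hpre ((Ac_mono a (by omega : i + 1 ≤ k)).trans hk1)]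
  have hneH : Ht B a b k ≠ Ht B a b' k := by
    unfold Ht
    have := dig_ne_of hne hk1 hk2
    omega
  have h3H : ∀ i, 3 ≤ Ht B a b i := fun i => by
    unfold Ht
    have := hB3 i
    omega
  have hsp := sep hη0.le h3H (hF b) (hF b') heq hneH
  have hD : (∏ i ∈ Finset.range k, (3 * (Ht B a b i : ℝ))) ≤
      ∏ i ∈ Finset.range k, (6 * (B i : ℝ)) := by
    apply Finset.prod_le_prod
    · intro i _; positivity
    · intro i _
      have h1 := hH1 b i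
      have h2 : (2 : ℝ) ^ (a i) ≤ B i := by exact_mod_cast hBa i
      linarith
  have hab : 0 ≤ |F b - F b'| := abs_nonneg _
  set D := ∏ i ∈ Finset.range k, (6 * (B i : ℝ)) with hDdef
  have hD0 : 0 ≤ D := Finset.prod_nonneg fun i _ => (hBpos i).le
  have h1 : 2 * η ≤ D * |F b - F b'| := hsp.trans (mul_le_mul_of_nonneg_right hD hab)
  have h2 : (2 * η) ^ (s : ℝ) ≤ D ^ (s : ℝ) * |F b - F b'| ^ (s : ℝ) := by
    rw [← Real.mul_rpow hD0 hab]
    exact Real.rpow_le_rpow (by linarith) h1 hs0'.le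
  have h3 : D ^ (s : ℝ) ≤ C0 * 2 ^ n := by
    have e1 : D ^ (s : ℝ) = ∏ i ∈ Finset.range k, (6 * (B i : ℝ)) ^ (s : ℝ) := by
      rw [hDdef, Real.finsetProd_rpow _ _ (fun i _ => (hBpos i).le)]
    rw [e1]
    refine (hC k).trans (mul_le_mul_of_nonneg_left ?_ hC0.le)
    rw [Finset.prod_pow_eq_pow_sum]
    exact pow_le_pow_right₀ (by norm_num) hk1
  have hw : 0 ≤ |F b - F b'| ^ (s : ℝ) := Real.rpow_nonneg hab _
  have h4 : (2 * η) ^ (s : ℝ) ≤ C0 * 2 ^ n * |F b - F b'| ^ (s : ℝ) :=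
    h2.trans (mul_le_mul_of_nonneg_right h3 hw)
  have h5 : 0 < (2 * η) ^ (s : ℝ) := by positivity
  show ((2 : ℝ) ^ n)⁻¹ ≤ C0 * (2 * η) ^ (-(s : ℝ)) * |F b - F b'| ^ (s : ℝ)
  rw [Real.rpow_neg (by linarith), inv_le_iff_one_le_mul₀ (by positivity)]
  rw [show C0 * ((2 * η) ^ (s : ℝ))⁻¹ * |F b - F b'| ^ (s : ℝ) * 2 ^ n =
    (C0 * 2 ^ n * |F b - F b'| ^ (s : ℝ)) / (2 * η) ^ (s : ℝ) by field_simp]
  rw [le_div_iff₀ h5, one_mul]
  exact h4

end Pool.Agent.K9h56.ED
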