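import Pool.Agent.K9h56.ED.DimCode

/-!
Prescribed growth: every sequence with ratios in a compact part of `(1/2, 3/2)`.
-/

set_option autoImplicit false

namespace Pool.Agent.K9h56.ED

open Real Set Filter Topology
open scoped NNReal ENNReal

/-- Every height up to `2 + (3/2)^k (n-2)` is reached from `n` in exactly `k` steps. -/
theorem reach {n : ℕ} (hn : 3 ≤ n) : ∀ (k h' : ℕ), n ≤ h' →
    (h' : ℝ) ≤ 2 + (3 / 2) ^ k * ((n : ℝ) - 2) → ∀ y ∈ Icc (h' : ℝ) (h' + 1),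
    ∃ x ∈ Icc (n : ℝ) (n + 1), g^[k] x = y ∧ ∀ i ≤ k, 3 ≤ g^[i] x := by
  have hn' : (3 : ℝ) ≤ n := by exact_mod_cast hn
  intro k
  induction k with
  | zero =>
    intro h' h1 h2 y hy
    rw [pow_zero, one_mul] at h2
    have h3 : h' ≤ n := by
      have : (h' : ℝ) ≤ n := by linarith
      exact_mod_cast this
    obtain rfl : h' = n := le_antisymm h3 h1
    refine ⟨y, hy, rfl, fun i hi => ?_⟩
    obtain rfl : i = 0 := by omega
    simp only [Function.iterate_zero, id_eq]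
    linarith [hy.1]
  | succ k ih =>
    intro h' h1 h2 y hy
    have h3 : 3 ≤ h' := hn.trans h1
    have h3' : (3 : ℝ) ≤ h' := by exact_mod_cast h3
    have hpow : (1 : ℝ) ≤ (3 / 2) ^ k := one_le_pow₀ (by norm_num)
    set M : ℝ := 2 + (3 / 2) ^ k * ((n : ℝ) - 2) with hM
    have hMn : (n : ℝ) ≤ M := by
      rw [hM]; nlinarith
    have hM0 : 0 ≤ M := by linarith
    obtain ⟨h, hh1, hh2, hh3, hh4⟩ : ∃ h : ℕ, n ≤ h ∧ (h : ℝ) ≤ M ∧ h + 1 ≤ 2 * h' ∧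
        2 * h' ≤ 3 * h := by
      by_cases hc : (h' : ℝ) ≤ M
      · exact ⟨h', h1, hc, by omega, by omega⟩
      · push Not at hc
        have h5 : (⌊M⌋₊ : ℝ) ≤ M := Nat.floor_le hM0
        have h6 : M < (⌊M⌋₊ : ℝ) + 1 := Nat.lt_floor_add_one M
        have h7 : n ≤ ⌊M⌋₊ := Nat.le_floor hMn
        have h8 : ⌊M⌋₊ < h' := by
          have : (⌊M⌋₊ : ℝ) < h' := lt_of_le_of_lt h5 hc
          exact_mod_cast this
        refine ⟨⌊M⌋₊, h7, h5, by omega, ?_⟩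
        have h9 : (h' : ℝ) ≤ 2 + (3 / 2) * (M - 2) := by
          rw [hM]
          rw [pow_succ] at h2
          linarith
        have h10 : 2 * (h' : ℝ) < 3 * (⌊M⌋₊ : ℝ) + 1 := by linarith
        have h11 : 2 * h' < 3 * ⌊M⌋₊ + 1 := by exact_mod_cast h10
        omega
    obtain ⟨z, hz, hzy⟩ := cover_int (hn.trans hh1) hh3 hh4 hy
    obtain ⟨x, hx, hxz, hx3⟩ := ih h hh1 hh2 z hz
    refine ⟨x, hx, ?_, fun i hi => ?_⟩
    · rw [Function.iterate_succ_apply', hxz, hzy]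
    · rcases Nat.lt_or_ge i (k + 1) with hlt | hge
      · exact hx3 i (by omega)
      · obtain rfl : i = k + 1 := by omega
        rw [Function.iterate_succ_apply', hxz, hzy]
        linarith [hy.1]

theorem slow {N : ℕ → ℝ} (hN : Tendsto N atTop atTop) {p : ℝ} (hp : p < 3 / 2)
    (h : ∀ᶠ k in atTop, N (k + 1) ≤ p * N k) :
    0 < p ∧ ∀ᶠ k in atTop, N k + 1 ≤ (3 / 2 : ℝ) ^ k := by
  obtain ⟨k1, hk1⟩ := eventually_atTop.1 (h.and (hN.eventually_gt_atTop 0))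
  have hp0 : 0 < p := by
    have h1 := hk1 k1 le_rfl
    have h2 := hk1 (k1 + 1) (by omega)
    by_contra hcon
    push Not at hcon
    have := mul_nonpos_of_nonpos_of_nonneg hcon h1.2.le
    linarith [h1.1, h2.2]
  refine ⟨hp0, ?_⟩
  have hi : ∀ i, N (k1 + i) ≤ N k1 * p ^ i := by
    intro i
    induction i with
    | zero => simp
    | succ i ih =>
      have h1 := (hk1 (k1 + i) (by omega)).1
      rw [show k1 + (i + 1) = k1 + i + 1 by ring]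
      refine h1.trans ?_
      calc p * N (k1 + i) ≤ p * (N k1 * p ^ i) := mul_le_mul_of_nonneg_left ih hp0.le
        _ = N k1 * p ^ (i + 1) := by ring
  have ht : Tendsto (fun i : ℕ => N k1 * (p / (3 / 2)) ^ i + (2 / 3 : ℝ) ^ i) atTop
      (𝓝 (N k1 * 0 + 0)) := by
    refine Tendsto.add (Tendsto.const_mul _ ?_) ?_
    · apply tendsto_pow_atTop_nhds_zero_of_lt_one (by positivity)
      rw [div_lt_one (by norm_num)]
      exact hp
    · exact tendsto_pow_atTop_nhds_zero_of_lt_one (by norm_num) (by norm_num)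
  have hev : ∀ᶠ i : ℕ in atTop, N k1 * (p / (3 / 2)) ^ i + (2 / 3 : ℝ) ^ i < 1 :=
    ht.eventually_lt_const (by norm_num)
  obtain ⟨i1, hi1⟩ := eventually_atTop.1 hev
  refine eventually_atTop.2 ⟨k1 + i1, fun k hk => ?_⟩
  obtain ⟨d, rfl⟩ := Nat.exists_eq_add_of_le hk
  have h1 := hi1 (i1 + d) (by omega)
  have h2 := hi (i1 + d)
  have h3 : (0 : ℝ) < (3 / 2) ^ (i1 + d) := by positivity
  have h4 : (N k1 * (p / (3 / 2)) ^ (i1 + d) + (2 / 3 : ℝ) ^ (i1 + d)) * (3 / 2) ^ (i1 + d) ≤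
      1 * (3 / 2) ^ (i1 + d) := mul_le_mul_of_nonneg_right h1.le h3.le
  have h5 : (N k1 * (p / (3 / 2)) ^ (i1 + d) + (2 / 3 : ℝ) ^ (i1 + d)) * (3 / 2) ^ (i1 + d) =
      N k1 * p ^ (i1 + d) + 1 := by
    rw [add_mul, mul_assoc, ← mul_pow, ← mul_pow]
    rw [show p / (3 / 2) * (3 / 2) = p by ring, show (2 / 3 : ℝ) * (3 / 2) = 1 by norm_num, one_pow]
  rw [h5, one_mul] at h4
  have h6 : (3 / 2 : ℝ) ^ (i1 + d) ≤ (3 / 2) ^ (k1 + i1 + d) :=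
    pow_le_pow_right₀ (by norm_num) (by omega)
  rw [show k1 + i1 + d = k1 + (i1 + d) by ring]
  rw [show k1 + i1 + d = k1 + (i1 + d) by ring] at h6
  linarith

/-- binary logarithm of the sequence -/
noncomputable def Lg (N : ℕ → ℝ) (k : ℕ) : ℕ := Nat.log 2 ⌊N k⌋₊

/-- block lengths -/
noncomputable def bl (N : ℕ → ℝ) (k : ℕ) : ℕ := Lg N k - Nat.sqrt (Lg N k)

theorem Lg_le {N : ℕ → ℝ} {k : ℕ} (h : 1 ≤ N k) : (2 : ℝ) ^ (Lg N k) ≤ N k := by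
  have h1 : 1 ≤ ⌊N k⌋₊ := Nat.le_floor (by simpa using h)
  have h2 : 2 ^ (Lg N k) ≤ ⌊N k⌋₊ := Nat.pow_log_le_self 2 (by omega)
  have h3 : ((2 : ℝ) ^ (Lg N k)) ≤ (⌊N k⌋₊ : ℝ) := by exact_mod_cast h2
  exact h3.trans (Nat.floor_le (by linarith))

theorem lt_Lg {N : ℕ → ℝ} {k : ℕ} : N k < (2 : ℝ) ^ (Lg N k + 1) := by
  have h2 : ⌊N k⌋₊ < 2 ^ (Lg N k + 1) := Nat.lt_pow_succ_log_self (by norm_num) _
  have h3 : ⌊N k⌋₊ + 1 ≤ 2 ^ (Lg N k + 1) := h2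
  have h4 : ((⌊N k⌋₊ : ℝ) + 1) ≤ (2 : ℝ) ^ (Lg N k + 1) := by exact_mod_cast h3
  exact (Nat.lt_floor_add_one _).trans_le h4

theorem Lg_tendsto {N : ℕ → ℝ} (hN : Tendsto N atTop atTop) : Tendsto (Lg N) atTop atTop := by
  rw [tendsto_atTop]
  intro m
  filter_upwards [hN.eventually_ge_atTop ((2 : ℝ) ^ m)] with k hk
  have h1 := lt_Lg (N := N) (k := k)
  have h2 : (2 : ℝ) ^ m < 2 ^ (Lg N k + 1) := lt_of_le_of_lt hk h1
  have h3 := (pow_lt_pow_iff_right₀ (by norm_num : (1 : ℝ) < 2)).1 h2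
  omega

theorem sqrt_tendsto : Tendsto Nat.sqrt atTop atTop := by
  rw [tendsto_atTop]
  intro m
  filter_upwards [eventually_ge_atTop (m * m)] with k hk
  exact Nat.le_sqrt.2 hk

theorem bl_eq (N : ℕ → ℝ) (k : ℕ) :
    (2 : ℝ) ^ (bl N k) = 2 ^ (Lg N k) * (1 / 2) ^ (Nat.sqrt (Lg N k)) := by
  have h1 : Nat.sqrt (Lg N k) ≤ Lg N k := Nat.sqrt_le_self _
  have h2 : bl N k + Nat.sqrt (Lg N k) = Lg N k := by unfold bl; omega
  have h3 : (2 : ℝ) ^ (Lg N k) = 2 ^ (bl N k) * 2 ^ (Nat.sqrt (Lg N k)) := by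
    rw [← pow_add, h2]
  rw [h3, mul_assoc, ← mul_pow]
  norm_num

theorem width {N : ℕ → ℝ} (hN : Tendsto N atTop atTop) {ε : ℝ} (hε : 0 < ε) :
    ∀ᶠ k in atTop, (2 : ℝ) ^ (bl N k) ≤ ε * N k := by
  have h1 : Tendsto (fun k => (1 / 2 : ℝ) ^ (Nat.sqrt (Lg N k))) atTop (𝓝 0) :=
    (tendsto_pow_atTop_nhds_zero_of_lt_one (by norm_num) (by norm_num)).comp
      (sqrt_tendsto.comp (Lg_tendsto hN))
  filter_upwards [h1.eventually_lt_const hε, hN.eventually_ge_atTop 1] with k hk hk1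
  rw [bl_eq]
  have h2 := Lg_le hk1
  have h3 : (0 : ℝ) ≤ (1 / 2) ^ (Nat.sqrt (Lg N k)) := by positivity
  calc (2 : ℝ) ^ (Lg N k) * (1 / 2) ^ (Nat.sqrt (Lg N k))
      ≤ N k * (1 / 2) ^ (Nat.sqrt (Lg N k)) := mul_le_mul_of_nonneg_right h2 h3
    _ ≤ N k * ε := mul_le_mul_of_nonneg_left hk.le (by linarith)
    _ = _ := by ring

theorem many {N : ℕ → ℝ} (hN : Tendsto N atTop atTop) {s : ℝ} (hs0 : 0 < s) (hs1 : s < 1) :
    ∀ᶠ k in atTop, (6 * (⌈N k⌉₊ : ℝ)) ^ s ≤ 2 ^ (bl N k) := by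
  set t : ℝ := (1 - s) / 2 with ht
  have ht0 : 0 < t := by rw [ht]; linarith
  have hL := Lg_tendsto hN
  have hLr : Tendsto (fun k => ((Lg N k : ℕ) : ℝ)) atTop atTop :=
    tendsto_natCast_atTop_atTop.comp hL
  filter_upwards [hLr.eventually_ge_atTop (1 / t ^ 2), hLr.eventually_ge_atTop (5 * s / t),
    hN.eventually_ge_atTop 1] with k h1 h2 h3
  set L := Lg N k with hLdef
  have h4 : ((Nat.sqrt L : ℕ) : ℝ) ≤ t * L := by
    have h5 : (Nat.sqrt L) ^ 2 ≤ L := Nat.sqrt_le' L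
    have h6 : ((Nat.sqrt L : ℕ) : ℝ) ^ 2 ≤ L := by exact_mod_cast h5
    have h7 : (1 : ℝ) ≤ t ^ 2 * L := by
      rw [div_le_iff₀ (by positivity)] at h1
      linarith
    have h8 : (0 : ℝ) ≤ L := Nat.cast_nonneg _
    have h9 : ((Nat.sqrt L : ℕ) : ℝ) ^ 2 ≤ (t * L) ^ 2 := by
      calc ((Nat.sqrt L : ℕ) : ℝ) ^ 2 ≤ 1 * L := by linarith
        _ ≤ t ^ 2 * L * L := mul_le_mul_of_nonneg_right h7 h8
        _ = (t * L) ^ 2 := by ring
    exact (abs_le_of_sq_le_sq' h9 (by positivity)).2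
  have h5 : 5 * s ≤ t * L := by
    rw [div_le_iff₀ ht0] at h2
    linarith
  have h6 : ((L : ℝ) + 5) * s ≤ (bl N k : ℕ) := by
    have h7 : ((bl N k : ℕ) : ℝ) = L - (Nat.sqrt L : ℕ) := by
      unfold bl
      rw [Nat.cast_sub (Nat.sqrt_le_self _)]
    rw [h7]
    have h8 : (1 - s) * (L : ℝ) = 2 * (t * L) := by rw [ht]; ring
    linarith
  have h7 : 6 * (⌈N k⌉₊ : ℝ) ≤ (2 : ℝ) ^ ((L : ℝ) + 5) := by
    have h8 : (⌈N k⌉₊ : ℝ) < N k + 1 := Nat.ceil_lt_add_one (by linarith)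
    have h9 := lt_Lg (N := N) (k := k)
    rw [← hLdef] at h9
    have h10 : (2 : ℝ) ^ ((L : ℝ) + 5) = 2 ^ (L + 1) * 16 := by
      rw [show ((L : ℝ) + 5) = ((L + 5 : ℕ) : ℝ) by push_cast; ring, Real.rpow_natCast]
      ring
    rw [h10]
    have h11 : (2 : ℝ) ≤ 2 ^ (L + 1) := by
      calc (2 : ℝ) = 2 ^ 1 := by norm_num
        _ ≤ 2 ^ (L + 1) := pow_le_pow_right₀ (by norm_num) (by omega)
    nlinarith
  calc (6 * (⌈N k⌉₊ : ℝ)) ^ s ≤ ((2 : ℝ) ^ ((L : ℝ) + 5)) ^ s :=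
        Real.rpow_le_rpow (by positivity) h7 hs0.le
    _ = (2 : ℝ) ^ (((L : ℝ) + 5) * s) := by rw [← Real.rpow_mul (by norm_num)]
    _ ≤ (2 : ℝ) ^ (((bl N k : ℕ) : ℝ)) := Real.rpow_le_rpow_of_exponent_le (by norm_num) h6
    _ = 2 ^ (bl N k) := Real.rpow_natCast _ _

end Pool.Agent.K9h56.ED
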