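import Pool.Agent.K9h56.ED.Grow

/-!
Assembly: points of `[n, n+1]` with prescribed growth.
-/

set_option autoImplicit false

namespace Pool.Agent.K9h56.ED

open Real Set Filter Topology
open scoped NNReal ENNReal

theorem eps {q p : ℝ} (hq : 1 / 2 < q) (hp0 : 0 < p) (hp : p < 3 / 2) :
    ∃ ε : ℝ, 0 < ε ∧ 1 / 2 < q / (1 + ε) ∧ (1 + ε) * p < 3 / 2 := by
  refine ⟨min (2 * q - 1) ((3 / 2 - p) / (3 / 2)) / 2, ?_, ?_, ?_⟩
  · have : 0 < min (2 * q - 1) ((3 / 2 - p) / (3 / 2)) := by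
      rw [lt_min_iff]
      constructor
      · linarith
      · apply div_pos <;> linarith
    linarith
  · have h0 : 0 < min (2 * q - 1) ((3 / 2 - p) / (3 / 2)) := by
      rw [lt_min_iff]
      constructor
      · linarith
      · apply div_pos <;> linarith
    have h1 : min (2 * q - 1) ((3 / 2 - p) / (3 / 2)) ≤ 2 * q - 1 := min_le_left _ _
    rw [lt_div_iff₀ (by linarith)]
    linarith
  · have h0 : 0 < min (2 * q - 1) ((3 / 2 - p) / (3 / 2)) := by
      rw [lt_min_iff]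
      constructor
      · linarith
      · apply div_pos <;> linarith
    have h1 : min (2 * q - 1) ((3 / 2 - p) / (3 / 2)) ≤ (3 / 2 - p) / (3 / 2) := min_le_right _ _
    set e := min (2 * q - 1) ((3 / 2 - p) / (3 / 2)) with he
    rw [le_div_iff₀ (by norm_num)] at h1
    nlinarith

/-- The points of `[n, n+1]` of growth `N`. -/
def TN (n : ℕ) (N : ℕ → ℝ) : Set ℝ :=
  {x : ℝ | x ∈ Icc (n : ℝ) (n + 1) ∧ (∀ k, 3 ≤ g^[k] x) ∧
    Tendsto (fun k => g^[k] x / N k) atTop (𝓝 1)}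

theorem one_le_dim {n : ℕ} (hn : 3 ≤ n) {N : ℕ → ℝ} (hN : Tendsto N atTop atTop) {q p : ℝ}
    (hq : 1 / 2 < q) (hp : p < 3 / 2)
    (h : ∀ᶠ k in atTop, q * N k ≤ N (k + 1) ∧ N (k + 1) ≤ p * N k) : 1 ≤ dimH (TN n N) := by
  have hn' : (3 : ℝ) ≤ n := by exact_mod_cast hn
  obtain ⟨hp0, hslow⟩ := slow hN hp (h.mono fun k hk => hk.2)
  obtain ⟨ε, hε, hq1, hp1⟩ := eps hq hp0 hp
  obtain ⟨η, hη0, hη1, h0, hcov⟩ := margin hq1 hp1
  have hq0' : 0 < q / (1 + ε) := by linarith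
  have hp0' : 0 < (1 + ε) * p := by positivity
  -- the starting index
  obtain ⟨k0, hk0⟩ := eventually_atTop.1 (h.and (hslow.and ((width hN (half_pos hε)).and
    ((hN.eventually_ge_atTop (max 3 (max (h0 : ℝ) (n : ℝ)))).and
      (hN.eventually_ge_atTop (2 / ε))))))
  have f1 : ∀ k, k0 ≤ k → q * N k ≤ N (k + 1) := fun k hk => (hk0 k hk).1.1
  have f2 : ∀ k, k0 ≤ k → N (k + 1) ≤ p * N k := fun k hk => (hk0 k hk).1.2
  have f3 : ∀ k, k0 ≤ k → N k + 1 ≤ (3 / 2 : ℝ) ^ k := fun k hk => (hk0 k hk).2.1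
  have f4 : ∀ k, k0 ≤ k → (2 : ℝ) ^ (bl N k) ≤ ε / 2 * N k := fun k hk => (hk0 k hk).2.2.1
  have f5 : ∀ k, k0 ≤ k → 3 ≤ N k := fun k hk => (le_max_left _ _).trans (hk0 k hk).2.2.2.1
  have f6 : ∀ k, k0 ≤ k → (h0 : ℝ) ≤ N k := fun k hk =>
    ((le_max_left _ _).trans (le_max_right _ _)).trans (hk0 k hk).2.2.2.1
  have f7 : ∀ k, k0 ≤ k → (n : ℝ) ≤ N k := fun k hk =>
    ((le_max_right _ _).trans (le_max_right _ _)).trans (hk0 k hk).2.2.2.1
  have f8 : ∀ k, k0 ≤ k → 1 ≤ ε / 2 * N k := fun k hk => by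
    have := (hk0 k hk).2.2.2.2
    rw [div_le_iff₀ hε] at this
    linarith
  have c1 : ∀ k, N k ≤ (⌈N k⌉₊ : ℝ) := fun k => Nat.le_ceil _
  have c2 : ∀ k, k0 ≤ k → (⌈N k⌉₊ : ℝ) ≤ N k + 1 := fun k hk =>
    (Nat.ceil_lt_add_one (by linarith [f5 k hk])).le
  have c3 : ∀ k, k0 ≤ k → (⌈N k⌉₊ : ℝ) + 2 ^ (bl N k) ≤ (1 + ε) * N k := fun k hk => by
    have := c2 k hk
    have := f4 k hk
    have := f8 k hk
    linarith
  -- the code
  set B : ℕ → ℕ := fun i => ⌈N (k0 + i)⌉₊ with hB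
  set a : ℕ → ℕ := fun i => if i = 0 then 0 else bl N (k0 + i) with ha
  have ha' : ∀ i, (2 : ℝ) ^ (a i) ≤ 2 ^ (bl N (k0 + i)) := by
    intro i
    apply pow_le_pow_right₀ (by norm_num)
    simp only [ha]
    split_ifs <;> omega
  have hdim : 1 ≤ dimH {y : ℝ | ∀ k, g^[k] y ∈ Icc (B k : ℝ) (B k + 2 ^ (a k))} := by
    apply dim_code (q := q / (1 + ε)) (p := (1 + ε) * p) hη0 hη1 hcov
    · intro k
      have h1 := f5 (k0 + k) (by omega)
      have h2 := c1 (k0 + k)
      have : (3 : ℝ) ≤ (B k : ℝ) := h1.trans h2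
      exact_mod_cast this
    · intro k
      have h1 := f6 (k0 + k) (by omega)
      have h2 := c1 (k0 + k)
      have : (h0 : ℝ) ≤ (B k : ℝ) := h1.trans h2
      exact_mod_cast this
    · intro k
      have h3 : (2 : ℝ) ^ (bl N (k0 + k)) ≤ N (k0 + k) := by
        rw [bl_eq]
        have h4 := Lg_le (N := N) (k := k0 + k) (by linarith [f5 (k0 + k) (by omega)])
        have h5 : ((1 : ℝ) / 2) ^ (Nat.sqrt (Lg N (k0 + k))) ≤ 1 :=
          pow_le_one₀ (by norm_num) (by norm_num)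
        have h6 : (0 : ℝ) < 2 ^ (Lg N (k0 + k)) := by positivity
        calc (2 : ℝ) ^ (Lg N (k0 + k)) * (1 / 2) ^ (Nat.sqrt (Lg N (k0 + k)))
            ≤ 2 ^ (Lg N (k0 + k)) * 1 := mul_le_mul_of_nonneg_left h5 h6.le
          _ ≤ N (k0 + k) := by rw [mul_one]; exact h4
      have : (2 : ℝ) ^ (a k) ≤ (B k : ℝ) := ((ha' k).trans h3).trans (c1 (k0 + k))
      exact_mod_cast this
    · exact hq0'
    · intro k
      have h1 := c3 (k0 + k) (by omega)
      have h2 := ha' k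
      have h3 : (B k : ℝ) + 2 ^ (a k) ≤ (1 + ε) * N (k0 + k) := by
        refine le_trans ?_ h1
        simp only [hB]
        linarith
      calc q / (1 + ε) * ((B k : ℝ) + 2 ^ (a k)) ≤ q / (1 + ε) * ((1 + ε) * N (k0 + k)) :=
            mul_le_mul_of_nonneg_left h3 hq0'.le
        _ = q * N (k0 + k) := by
            field_simp
        _ ≤ N (k0 + (k + 1)) := f1 (k0 + k) (by omega)
        _ ≤ (B (k + 1) : ℝ) := c1 _
    · exact hp0'
    · intro k
      have h1 := c3 (k0 + (k + 1)) (by omega)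
      have h2 := ha' (k + 1)
      have h3 : (B (k + 1) : ℝ) + 2 ^ (a (k + 1)) ≤ (1 + ε) * N (k0 + (k + 1)) := by
        refine le_trans ?_ h1
        simp only [hB]
        linarith
      calc (B (k + 1) : ℝ) + 2 ^ (a (k + 1)) ≤ (1 + ε) * N (k0 + (k + 1)) := h3
        _ ≤ (1 + ε) * (p * N (k0 + k)) :=
            mul_le_mul_of_nonneg_left (f2 (k0 + k) (by omega)) (by linarith)
        _ = (1 + ε) * p * N (k0 + k) := by ring
        _ ≤ (1 + ε) * p * (B k : ℝ) := mul_le_mul_of_nonneg_left (c1 _) hp0'.le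
    · intro s hs0 hs1
      have h1 := many hN hs0 hs1
      have h2 : Tendsto (fun i : ℕ => k0 + i) atTop atTop :=
        tendsto_atTop_mono (fun i => Nat.le_add_left i k0) tendsto_id
      filter_upwards [h2.eventually h1, eventually_ge_atTop 1] with i hi hi1
      simp only [hB, ha]
      rw [if_neg (by omega)]
      exact hi
  -- pull back
  have hsub : {y : ℝ | ∀ k, g^[k] y ∈ Icc (B k : ℝ) (B k + 2 ^ (a k))} ⊆ g^[k0] '' (TN n N) := by
    intro y hy
    have hy0 := hy 0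
    simp only [Function.iterate_zero, id_eq, ha, if_true, pow_zero] at hy0
    have hnB : n ≤ B 0 := by
      have : (n : ℝ) ≤ (B 0 : ℝ) := (f7 (k0 + 0) (by omega)).trans (c1 _)
      exact_mod_cast this
    have hBs : (B 0 : ℝ) ≤ 2 + (3 / 2) ^ k0 * ((n : ℝ) - 2) := by
      have h1 := c2 (k0 + 0) (by omega)
      have h2 := f3 k0 le_rfl
      have h3 : (0 : ℝ) < (3 / 2) ^ k0 := by positivity
      simp only [hB, add_zero] at h1 ⊢
      nlinarith
    obtain ⟨x, hx, hxy, hx3⟩ := reach hn k0 (B 0) hnB hBs y hy0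
    have htail : ∀ i, g^[k0 + i] x ∈ Icc (N (k0 + i)) (N (k0 + i) + 1 + 2 ^ (bl N (k0 + i))) := by
      intro i
      have e : g^[k0 + i] x = g^[i] y := by
        rw [add_comm, Function.iterate_add_apply, hxy]
      rw [e]
      have h1 := hy i
      have h2 := ha' i
      have h3 := c1 (k0 + i)
      have h4 := c2 (k0 + i) (by omega)
      constructor
      · exact h3.trans h1.1
      · refine h1.2.trans ?_
        simp only [hB]
        linarith
    refine ⟨x, ⟨hx, ?_, ?_⟩, hxy⟩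
    · intro k
      rcases le_total k k0 with hk | hk
      · exact hx3 k hk
      · obtain ⟨i, rfl⟩ := Nat.exists_eq_add_of_le hk
        exact (f5 (k0 + i) (by omega)).trans (htail i).1
    · rw [Metric.tendsto_atTop]
      intro δ hδ
      obtain ⟨k1, hk1⟩ := eventually_atTop.1 ((width hN (half_pos hδ)).and
        (hN.eventually_gt_atTop (2 / δ)))
      refine ⟨max k0 k1, fun k hk => ?_⟩
      have hk0' : k0 ≤ k := (le_max_left _ _).trans hk
      have hk1' : k1 ≤ k := (le_max_right _ _).trans hk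
      obtain ⟨i, rfl⟩ := Nat.exists_eq_add_of_le hk0'
      have h1 := htail i
      have h2 := (hk1 (k0 + i) hk1').1
      have h3 := (hk1 (k0 + i) hk1').2
      have h4 := f5 (k0 + i) (by omega)
      have h5 : 0 < N (k0 + i) := by linarith
      rw [div_lt_iff₀ hδ] at h3
      rw [Real.dist_eq, abs_lt]
      have h6 : g^[k0 + i] x / N (k0 + i) - 1 = (g^[k0 + i] x - N (k0 + i)) / N (k0 + i) := by
        field_simp
      rw [h6, lt_div_iff₀ h5, div_lt_iff₀ h5]
      constructor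
      · nlinarith [h1.1]
      · nlinarith [h1.2]
  calc (1 : ℝ≥0∞) ≤ dimH {y : ℝ | ∀ k, g^[k] y ∈ Icc (B k : ℝ) (B k + 2 ^ (a k))} := hdim
    _ ≤ dimH (g^[k0] '' (TN n N)) := dimH_mono hsub
    _ ≤ dimH (TN n N) :=
        ((g_iter_smooth k0).contDiffOn (s := univ)).dimH_image_le convex_univ (subset_univ _)

theorem dim_eq_one {n : ℕ} (hn : 3 ≤ n) {N : ℕ → ℝ} (hN : Tendsto N atTop atTop) {q p : ℝ}
    (hq : 1 / 2 < q) (hp : p < 3 / 2)
    (h : ∀ᶠ k in atTop, q * N k ≤ N (k + 1) ∧ N (k + 1) ≤ p * N k) : dimH (TN n N) = 1 := by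
  apply le_antisymm _ (one_le_dim hn hN hq hp h)
  calc dimH (TN n N) ≤ dimH (univ : Set ℝ) := dimH_mono (subset_univ _)
    _ = 1 := Real.dimH_univ

/-- The third fixed point is smaller than `3`. -/
theorem fix_lt_three {a b c : ℝ} (ha : 0 < a) (hab : a < b) (hbc : b < c)
    (hmin : ∀ x : ℝ, 0 < x → x ≤ c → g x = x → x = a ∨ x = b ∨ x = c) : c < 3 := by
  by_contra hcon
  push Not at hcon
  have hc : Continuous fun x : ℝ => g x - x := g_cont.sub continuous_id
  have v0 : g (1 / 8) - 1 / 8 < 0 := by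
    unfold g
    have h1 := Real.one_sub_sq_div_two_le_cos (x := Real.pi * (1 / 8))
    have hp2 : Real.pi < 3.15 := Real.pi_lt_d2
    have hp0 := Real.pi_pos
    nlinarith
  have v1 : 0 < g (1 / 2) - 1 / 2 := by
    unfold g
    rw [show Real.pi * (1 / 2) = Real.pi / 2 by ring, Real.cos_pi_div_two]
    norm_num
  have v3 : 0 < g (3 / 2) - 3 / 2 := by
    unfold g
    rw [show Real.pi * (3 / 2) = Real.pi / 2 + Real.pi by ring, Real.cos_add_pi,
      Real.cos_pi_div_two]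
    norm_num
  have v4 : g 2 - 2 < 0 := by
    unfold g
    rw [show Real.pi * 2 = 2 * Real.pi by ring, Real.cos_two_pi]
    norm_num
  have v5 : 0 < g (5 / 2) - 5 / 2 := by
    unfold g
    rw [show Real.pi * (5 / 2) = Real.pi / 2 + 2 * Real.pi by ring, Real.cos_add_two_pi,
      Real.cos_pi_div_two]
    norm_num
  obtain ⟨x1, hx1, e1⟩ := intermediate_value_Icc (by norm_num : (1 / 8 : ℝ) ≤ 1 / 2)
    hc.continuousOn (show (0 : ℝ) ∈ Icc (g (1 / 8) - 1 / 8) (g (1 / 2) - 1 / 2) from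
      ⟨v0.le, v1.le⟩)
  obtain ⟨x2, hx2, e2⟩ := intermediate_value_Icc' (by norm_num : (3 / 2 : ℝ) ≤ 2)
    hc.continuousOn (show (0 : ℝ) ∈ Icc (g 2 - 2) (g (3 / 2) - 3 / 2) from ⟨v4.le, v3.le⟩)
  obtain ⟨x3, hx3, e3⟩ := intermediate_value_Icc (by norm_num : (2 : ℝ) ≤ 5 / 2)
    hc.continuousOn (show (0 : ℝ) ∈ Icc (g 2 - 2) (g (5 / 2) - 5 / 2) from ⟨v4.le, v5.le⟩)
  simp only at e1 e2 e3
  have hx23 : x2 ≠ x3 := by
    intro he
    have h2 : x2 = 2 := by
      have := hx2.2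
      have := hx3.1
      linarith
    rw [h2] at e2
    linarith
  have g1 := hmin x1 (by linarith [hx1.1]) (by linarith [hx1.2]) (by linarith)
  have g2 := hmin x2 (by linarith [hx2.1]) (by linarith [hx2.2]) (by linarith)
  have g3 := hmin x3 (by linarith [hx3.1]) (by linarith [hx3.2]) (by linarith)
  have l1 : x1 < x2 := by linarith [hx1.2, hx2.1]
  have l2 : x2 < x3 := lt_of_le_of_ne (hx2.2.trans hx3.1) hx23
  have l3 : x3 < c := by linarith [hx3.2]
  rcases g3 with g3 | g3 | g3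
  · rcases g2 with g2 | g2 | g2 <;> rcases g1 with g1 | g1 | g1 <;> linarith
  · rcases g2 with g2 | g2 | g2
    · rcases g1 with g1 | g1 | g1 <;> linarith
    · linarith
    · linarith
  · linarith

end Pool.Agent.K9h56.ED
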